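import Mathlib

set_option autoImplicit false

open Finset

namespace Pool.Agent.H888R3.DG

theorem fib {G K : Type} [AddCommGroup G] [Fintype G] [AddCommGroup K] [Fintype K]
    (φ : G →+ K) (hφ : Function.Surjective φ) (f : K → ℕ) :
    Fintype.card K * ∑ x, f (φ x) = Fintype.card G * ∑ z, f z := by
  have h1 : ∀ z' : K, ∑ x, f (φ x) = ∑ x, f (φ x + z') := by
    intro z'
    obtain ⟨y, rfl⟩ := hφ z'
    rw [← Equiv.sum_comp (Equiv.addRight y) (fun x => f (φ x))]
    refine Finset.sum_congr rfl fun x _ => ?_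
    simp
  calc Fintype.card K * ∑ x, f (φ x) = ∑ _z' : K, ∑ x, f (φ x) := by
        rw [Finset.sum_const, Finset.card_univ, smul_eq_mul]
    _ = ∑ z' : K, ∑ x, f (φ x + z') := Finset.sum_congr rfl fun z' _ => h1 z'
    _ = ∑ x, ∑ z' : K, f (φ x + z') := Finset.sum_comm
    _ = ∑ _x : G, ∑ z, f z := Finset.sum_congr rfl fun x _ =>
        Equiv.sum_comp (Equiv.addLeft (φ x)) f
    _ = _ := by rw [Finset.sum_const, Finset.card_univ, smul_eq_mul]

theorem sum_image_le' {ι κ : Type} [DecidableEq κ] (J : Finset ι) (F : ι → κ) (g : κ → ℕ) :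
    ∑ z ∈ J.image F, g z ≤ ∑ t ∈ J, g (F t) := by
  classical
  induction J using Finset.induction_on with
  | empty => simp
  | insert a J ha ih =>
    rw [Finset.image_insert, Finset.sum_insert ha]
    by_cases h : F a ∈ J.image F
    · rw [Finset.insert_eq_of_mem h]
      exact ih.trans (Nat.le_add_left _ _)
    · rw [Finset.sum_insert h]
      exact Nat.add_le_add_left ih _

variable {p : ℕ} [Fact p.Prime] {V : Type} [AddCommGroup V] [Module (ZMod p) V]

/-- the linear map given by `2k` vectors -/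
def L {k : ℕ} (X : Fin 2 → Fin k → V) : (Fin 2 → Fin k → ZMod p) →ₗ[ZMod p] V where
  toFun w := ∑ i, ∑ j, w i j • X i j
  map_add' w w' := by
    simp only [Pi.add_apply, add_smul, Finset.sum_add_distrib]
  map_smul' c w := by
    simp only [Pi.smul_apply, smul_eq_mul, mul_smul, Finset.smul_sum, RingHom.id_apply]

theorem L_apply {k : ℕ} (X : Fin 2 → Fin k → V) (w : Fin 2 → Fin k → ZMod p) :
    L X w = ∑ i, ∑ j, w i j • X i j := rfl

/-- evaluation at `w`, additive in the vectors -/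
def ev {k : ℕ} (w : Fin 2 → Fin k → ZMod p) : (Fin 2 → Fin k → V) →+ V where
  toFun X := ∑ i, ∑ j, w i j • X i j
  map_zero' := by simp
  map_add' X X' := by
    simp only [Pi.add_apply, smul_add, Finset.sum_add_distrib]

theorem ev_apply {k : ℕ} (w : Fin 2 → Fin k → ZMod p) (X : Fin 2 → Fin k → V) :
    ev w X = L X w := rfl

theorem ev_single {k : ℕ} (w : Fin 2 → Fin k → ZMod p) (i : Fin 2) (j : Fin k) (u : V) :
    ev w (Pi.single i (Pi.single j u)) = w i j • u := by
  show ∑ i', ∑ j', w i' j' • ((Pi.single i (Pi.single j u) : Fin 2 → Fin k → V) i' j') = _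
  rw [Finset.sum_eq_single i, Finset.sum_eq_single j]
  · simp
  · intro j' _ hj'
    rw [Pi.single_eq_same, Pi.single_eq_of_ne hj', smul_zero]
  · intro h; exact absurd (Finset.mem_univ _) h
  · intro i' _ hi'
    refine Finset.sum_eq_zero fun j' _ => ?_
    rw [Pi.single_eq_of_ne hi', Pi.zero_apply, smul_zero]
  · intro h; exact absurd (Finset.mem_univ _) h

theorem ev_surj {k : ℕ} (w : Fin 2 → Fin k → ZMod p) (hw : w ≠ 0) :
    Function.Surjective (ev w : (Fin 2 → Fin k → V) →+ V) := by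
  intro u
  obtain ⟨i, hi⟩ := Function.ne_iff.1 hw
  obtain ⟨j, hj⟩ := Function.ne_iff.1 hi
  refine ⟨Pi.single i (Pi.single j ((w i j)⁻¹ • u)), ?_⟩
  rw [ev_single, smul_smul, mul_inv_cancel₀ hj, one_smul]

theorem ev2_surj {k : ℕ} (w w' : Fin 2 → Fin k → ZMod p) (i i' : Fin 2) (j l : Fin k)
    (h1 : w i j ≠ 0) (h2 : w' i' l ≠ 0) (h3 : w i' = 0) :
    Function.Surjective ((ev w).prod (ev w') : (Fin 2 → Fin k → V) →+ V × V) := by
  rintro ⟨u, v⟩
  refine ⟨Pi.single i (Pi.single j ((w i j)⁻¹ • u)) +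
    Pi.single i' (Pi.single l ((w' i' l)⁻¹ • (v - w' i j • (w i j)⁻¹ • u))), ?_⟩
  rw [AddMonoidHom.prod_apply, map_add, map_add, ev_single, ev_single, ev_single, ev_single,
    smul_smul, mul_inv_cancel₀ h1, one_smul, h3, Pi.zero_apply, zero_smul, add_zero,
    smul_smul (w' i' l), mul_inv_cancel₀ h2, one_smul]
  simp

end Pool.Agent.H888R3.DG
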