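import Mathlib
import Pool.Agent.H888R3.DG.AvgCore

set_option autoImplicit false

open Finset

namespace Pool.Agent.H888R3.DG

variable {p : ℕ} [Fact p.Prime] {V : Type} [AddCommGroup V] [Module (ZMod p) V]

/-- the index set of bad pairs -/
abbrev Idx (p k : ℕ) : Type := Fin 2 × (Fin k → ZMod p) × (Fin 2 → Fin k → ZMod p)

/-- the bad pairs `(i, a, w')` -/
def Bad {k : ℕ} (t : Idx p k) : Prop := t.2.1 ≠ 0 ∧ ∃ i', i' ≠ t.1 ∧ t.2.2 i' ≠ 0

/-- the two vectors of a pair -/
def w1 {k : ℕ} (t : Idx p k) : Fin 2 → Fin k → ZMod p := Pi.single t.1 t.2.1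

theorem bad_surj {k : ℕ} (t : Idx p k) (h : Bad t) :
    Function.Surjective ((ev (w1 t)).prod (ev t.2.2) : (Fin 2 → Fin k → V) →+ V × V) := by
  obtain ⟨h1, i', hi', h2⟩ := h
  obtain ⟨j, hj⟩ := Function.ne_iff.1 h1
  obtain ⟨l, hl⟩ := Function.ne_iff.1 h2
  refine ev2_surj (w1 t) t.2.2 t.1 i' j l ?_ hl ?_
  · unfold w1
    rw [Pi.single_eq_same]
    exact hj
  · unfold w1
    rw [Pi.single_eq_of_ne hi']

variable [Fintype V] [DecidableEq V]

theorem card_Om (k s : ℕ) (hV : Fintype.card V = p ^ s) :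
    0 < Fintype.card (Fin 2 → Fin k → V) := Fintype.card_pos

theorem sum_bad {k s : ℕ} (N : V → V → ℕ) (n : ℕ) (hV : Fintype.card V = p ^ s)
    (hN : ∀ u, ∑ v, N u v ≤ n) (t : Idx p k) (h : Bad t) :
    p ^ s * ∑ X : Fin 2 → Fin k → V, N (L X (w1 t)) (L X t.2.2)
      ≤ Fintype.card (Fin 2 → Fin k → V) * n := by
  have hf := fib ((ev (w1 t)).prod (ev t.2.2) : (Fin 2 → Fin k → V) →+ V × V) (bad_surj t h)
    (fun z => N z.1 z.2)
  have h1 : ∑ z : V × V, N z.1 z.2 ≤ p ^ s * n := by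
    rw [Fintype.sum_prod_type]
    calc ∑ u, ∑ v, N u v ≤ ∑ _u : V, n := Finset.sum_le_sum fun u _ => hN u
      _ = p ^ s * n := by rw [Finset.sum_const, Finset.card_univ, smul_eq_mul, hV]
  rw [Fintype.card_prod, hV] at hf
  have h2 : p ^ s * (p ^ s * ∑ X : Fin 2 → Fin k → V, N (L X (w1 t)) (L X t.2.2))
      ≤ p ^ s * (Fintype.card (Fin 2 → Fin k → V) * n) := by
    calc p ^ s * (p ^ s * ∑ X : Fin 2 → Fin k → V, N (L X (w1 t)) (L X t.2.2))
        = p ^ s * p ^ s * ∑ X : Fin 2 → Fin k → V, N (L X (w1 t)) (L X t.2.2) := by ring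
      _ = Fintype.card (Fin 2 → Fin k → V) * ∑ z : V × V, N z.1 z.2 := hf
      _ ≤ Fintype.card (Fin 2 → Fin k → V) * (p ^ s * n) := Nat.mul_le_mul_left _ h1
      _ = p ^ s * (Fintype.card (Fin 2 → Fin k → V) * n) := by ring
  exact Nat.le_of_mul_le_mul_left h2 (by rw [← hV]; exact Fintype.card_pos)

theorem count_zero {k s : ℕ} (hV : Fintype.card V = p ^ s) (w : Fin 2 → Fin k → ZMod p)
    (hw : w ≠ 0) :
    p ^ s * (univ.filter fun X : Fin 2 → Fin k → V => L X w = 0).card
      = Fintype.card (Fin 2 → Fin k → V) := by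
  have hf := fib (ev w : (Fin 2 → Fin k → V) →+ V) (ev_surj w hw) (fun z => if z = 0 then 1 else 0)
  rw [Finset.sum_ite_eq' univ (0 : V) (fun _ => 1), if_pos (mem_univ _), mul_one, hV] at hf
  rw [← hf, Finset.card_filter]
  rfl

open Classical in
theorem count_noninj {k s : ℕ} (hV : Fintype.card V = p ^ s) :
    p ^ s * (univ.filter fun X : Fin 2 → Fin k → V =>
        ¬ Function.Injective (L (p := p) X)).card
      ≤ p ^ (2 * k) * Fintype.card (Fin 2 → Fin k → V) := by
  have hsub : (univ.filter fun X : Fin 2 → Fin k → V => ¬ Function.Injective (L (p := p) X)) ⊆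
      (univ.filter fun w : Fin 2 → Fin k → ZMod p => w ≠ 0).biUnion
        (fun w => univ.filter fun X : Fin 2 → Fin k → V => L X w = 0) := by
    intro X hX
    rw [mem_filter] at hX
    have h1 := hX.2
    rw [injective_iff_map_eq_zero] at h1
    push Not at h1
    obtain ⟨w, hw, hw0⟩ := h1
    rw [mem_biUnion]
    exact ⟨w, mem_filter.2 ⟨mem_univ _, hw0⟩, mem_filter.2 ⟨mem_univ _, hw⟩⟩
  have hcard : Fintype.card (Fin 2 → Fin k → ZMod p) = p ^ (2 * k) := by
    rw [Fintype.card_fun, Fintype.card_fun, ZMod.card, Fintype.card_fin, Fintype.card_fin,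
      ← pow_mul, mul_comm]
  calc p ^ s * (univ.filter fun X : Fin 2 → Fin k → V =>
        ¬ Function.Injective (L (p := p) X)).card
      ≤ p ^ s * ∑ w ∈ (univ.filter fun w : Fin 2 → Fin k → ZMod p => w ≠ 0),
        (univ.filter fun X : Fin 2 → Fin k → V => L X w = 0).card :=
        Nat.mul_le_mul_left _ ((card_le_card hsub).trans card_biUnion_le)
    _ = ∑ w ∈ (univ.filter fun w : Fin 2 → Fin k → ZMod p => w ≠ 0),
        p ^ s * (univ.filter fun X : Fin 2 → Fin k → V => L X w = 0).card := by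
        rw [Finset.mul_sum]
    _ = ∑ w ∈ (univ.filter fun w : Fin 2 → Fin k → ZMod p => w ≠ 0),
        Fintype.card (Fin 2 → Fin k → V) :=
        Finset.sum_congr rfl fun w hw => count_zero hV w (mem_filter.1 hw).2
    _ = (univ.filter fun w : Fin 2 → Fin k → ZMod p => w ≠ 0).card *
        Fintype.card (Fin 2 → Fin k → V) := by rw [Finset.sum_const, smul_eq_mul]
    _ ≤ p ^ (2 * k) * Fintype.card (Fin 2 → Fin k → V) := by
        refine Nat.mul_le_mul_right _ ?_
        rw [← hcard, ← Finset.card_univ]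
        exact card_le_card (filter_subset _ _)

open Classical in
/-- the choice of the `2k` vectors -/
theorem choose_X (N : V → V → ℕ) (n k s : ℕ) (hV : Fintype.card V = p ^ s)
    (hN : ∀ u, ∑ v, N u v ≤ n) (hs : 3 * k + 6 ≤ s) :
    ∃ X : Fin 2 → Fin k → V, Function.Injective (L (p := p) X) ∧
      16 * ∑ t ∈ univ.filter (fun t : Idx p k => Bad t), N (L X (w1 t)) (L X t.2.2) ≤ n := by
  by_contra hcon
  push Not at hcon
  set Hc := Fintype.card (Fin 2 → Fin k → V) with hHc
  have hHpos : 0 < Hc := Fintype.card_pos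
  have hp2 : 2 ≤ p := (Fact.out : p.Prime).two_le
  have hp0 : 0 < p := by omega
  have hps : 64 * p ^ (3 * k) ≤ p ^ s := by
    calc 64 * p ^ (3 * k) = p ^ (3 * k) * 2 ^ 6 := by ring
      _ ≤ p ^ (3 * k) * p ^ 6 := Nat.mul_le_mul_left _ (Nat.pow_le_pow_left hp2 6)
      _ = p ^ (3 * k + 6) := by rw [pow_add]
      _ ≤ p ^ s := Nat.pow_le_pow_right hp0 hs
  set bad : (Fin 2 → Fin k → V) → ℕ := fun X =>
    ∑ t ∈ univ.filter (fun t : Idx p k => Bad t), N (L X (w1 t)) (L X t.2.2) with hbad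
  -- total
  have hJ : (univ.filter (fun t : Idx p k => Bad t)).card ≤ 2 * p ^ (3 * k) := by
    refine (card_le_card (filter_subset _ _)).trans ?_
    rw [Finset.card_univ, Fintype.card_prod, Fintype.card_prod, Fintype.card_fun, Fintype.card_fun,
      Fintype.card_fun, ZMod.card, Fintype.card_fin, Fintype.card_fin, ← pow_mul, ← pow_add]
    refine le_of_eq ?_
    congr 2
    ring
  have htot : 32 * ∑ X, bad X ≤ Hc * n := by
    have h1 : p ^ s * ∑ X, bad X ≤ 2 * p ^ (3 * k) * (Hc * n) := by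
      calc p ^ s * ∑ X, bad X
          = ∑ t ∈ univ.filter (fun t : Idx p k => Bad t),
            p ^ s * ∑ X : Fin 2 → Fin k → V, N (L X (w1 t)) (L X t.2.2) := by
            rw [hbad, Finset.sum_comm, Finset.mul_sum]
        _ ≤ ∑ t ∈ univ.filter (fun t : Idx p k => Bad t), Hc * n :=
            Finset.sum_le_sum fun t ht => sum_bad N n hV hN t (mem_filter.1 ht).2
        _ = (univ.filter (fun t : Idx p k => Bad t)).card * (Hc * n) := by
            rw [Finset.sum_const, smul_eq_mul]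
        _ ≤ 2 * p ^ (3 * k) * (Hc * n) := Nat.mul_le_mul_right _ hJ
    have h2 : 64 * p ^ (3 * k) * ∑ X, bad X ≤ 2 * p ^ (3 * k) * (Hc * n) :=
      (Nat.mul_le_mul_right _ hps).trans h1
    have h3 : p ^ (3 * k) * (2 * (32 * ∑ X, bad X)) ≤ p ^ (3 * k) * (2 * (Hc * n)) := by
      calc p ^ (3 * k) * (2 * (32 * ∑ X, bad X)) = 64 * p ^ (3 * k) * ∑ X, bad X := by ring
        _ ≤ 2 * p ^ (3 * k) * (Hc * n) := h2
        _ = _ := by ring
    have h4 := Nat.le_of_mul_le_mul_left h3 (pow_pos hp0 _)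
    omega
  -- non injective
  have hnon : 64 * (univ.filter fun X : Fin 2 → Fin k → V =>
      ¬ Function.Injective (L (p := p) X)).card ≤ Hc := by
    have h1 := count_noninj (V := V) (k := k) hV
    have h2 : p ^ (2 * k) ≤ p ^ (3 * k) := Nat.pow_le_pow_right hp0 (by omega)
    set m := (univ.filter fun X : Fin 2 → Fin k → V => ¬ Function.Injective (L (p := p) X)).card
    have h3 : p ^ (3 * k) * (64 * m) ≤ p ^ (3 * k) * Hc := by
      calc p ^ (3 * k) * (64 * m) = 64 * p ^ (3 * k) * m := by ring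
        _ ≤ p ^ s * m := Nat.mul_le_mul_right _ hps
        _ ≤ p ^ (2 * k) * Hc := h1
        _ ≤ p ^ (3 * k) * Hc := Nat.mul_le_mul_right _ h2
    exact Nat.le_of_mul_le_mul_left h3 (pow_pos hp0 _)
  have hsplit : (univ.filter fun X : Fin 2 → Fin k → V => Function.Injective (L (p := p) X)).card +
      (univ.filter fun X : Fin 2 → Fin k → V => ¬ Function.Injective (L (p := p) X)).card = Hc := by
    rw [Finset.card_filter_add_card_filter_not, Finset.card_univ]
  -- sum over injective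
  have hinj : (univ.filter fun X : Fin 2 → Fin k → V => Function.Injective (L (p := p) X)).card *
      (n + 1) ≤ 16 * ∑ X, bad X := by
    calc (univ.filter fun X : Fin 2 → Fin k → V => Function.Injective (L (p := p) X)).card * (n + 1)
        = ∑ X ∈ univ.filter fun X : Fin 2 → Fin k → V => Function.Injective (L (p := p) X),
          (n + 1) := by rw [Finset.sum_const, smul_eq_mul]
      _ ≤ ∑ X ∈ univ.filter fun X : Fin 2 → Fin k → V => Function.Injective (L (p := p) X),
          16 * bad X := Finset.sum_le_sum fun X hX => hcon X (mem_filter.1 hX).2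
      _ ≤ ∑ X, 16 * bad X := Finset.sum_le_sum_of_subset (filter_subset _ _)
      _ = 16 * ∑ X, bad X := by rw [Finset.mul_sum]
  set I := (univ.filter fun X : Fin 2 → Fin k → V => Function.Injective (L (p := p) X)).card
  set m := (univ.filter fun X : Fin 2 → Fin k → V => ¬ Function.Injective (L (p := p) X)).card
  have h5 : 2 * (I * (n + 1)) ≤ Hc * n := by omega
  have h6 : 63 * Hc ≤ 64 * I := by omega
  have h7 : 63 * Hc * (n + 1) ≤ 64 * I * (n + 1) := Nat.mul_le_mul_right _ h6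
  have h8 : 64 * I * (n + 1) ≤ 32 * (Hc * n) := by
    calc 64 * I * (n + 1) = 32 * (2 * (I * (n + 1))) := by ring
      _ ≤ 32 * (Hc * n) := Nat.mul_le_mul_left _ h5
  have h9 : 63 * Hc * (n + 1) = 32 * (Hc * n) + 31 * (Hc * n) + 63 * Hc := by ring
  have : 0 < 63 * Hc := by omega
  omega

end Pool.Agent.H888R3.DG
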