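import Mathlib
import Pool.Agent.H43R3.DG.Stmts
import Pool.Agent.H888R3.DG.AvgCore
import Pool.Agent.H888R3.DG.AvgCount

set_option autoImplicit false

open Finset

namespace Pool.Agent.H888R3.DG

open Classical in
theorem avg : Pool.Agent.H43R3.DG.TaskAVG := by
  intro p hp V _ _ _ _ N n k s hV hN hs
  obtain ⟨X, hX, hsum⟩ := choose_X (p := p) N n k s hV hN hs
  set U : Fin 2 → Submodule (ZMod p) V := fun i =>
    LinearMap.range ((L (p := p) X) ∘ₗ (LinearMap.single (ZMod p) (fun _ : Fin 2 => Fin k → ZMod p) i))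
    with hU
  have hmem : ∀ i v, v ∈ U i ↔ ∃ a : Fin k → ZMod p,
      L X (Pi.single i a : Fin 2 → Fin k → ZMod p) = v := by
    intro i v
    rw [hU]
    simp only [LinearMap.mem_range, LinearMap.comp_apply, LinearMap.single_apply]
  refine ⟨U, ?_, ?_, (univ.filter (fun t : Idx p k => Bad t)).image
    (fun t => (L X (w1 t), L X t.2.2)), ?_, ?_⟩
  · rw [Submodule.eq_bot_iff]
    intro v hv
    obtain ⟨h0, h1⟩ := Submodule.mem_inf.1 hv
    obtain ⟨a, ha⟩ := (hmem 0 v).1 h0
    obtain ⟨b, hb⟩ := (hmem 1 v).1 h1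
    have h2 := hX (ha.trans hb.symm)
    have h3 := congrFun h2 0
    rw [Pi.single_eq_same, Pi.single_eq_of_ne (by decide)] at h3
    rw [← ha, h3, Pi.single_zero, map_zero]
  · intro i
    have hinj : Function.Injective ((L (p := p) X) ∘ₗ
        (LinearMap.single (ZMod p) (fun _ : Fin 2 => Fin k → ZMod p) i)) := by
      intro a b hab
      have h1 := hX hab
      have h2 := congrFun h1 i
      simpa using h2
    have h1 := Nat.card_congr (LinearEquiv.ofInjective _ hinj).toEquiv
    show Nat.card (LinearMap.range ((L (p := p) X) ∘ₗ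
      (LinearMap.single (ZMod p) (fun _ : Fin 2 => Fin k → ZMod p) i))) = p ^ k
    rw [← h1, Nat.card_eq_fintype_card, Fintype.card_fun, ZMod.card, Fintype.card_fin]
  · intro u v i hu hu0 hv hvi
    obtain ⟨a, ha⟩ := (hmem i u).1 hu
    obtain ⟨y, hy, z, hz, hyz⟩ := Submodule.mem_sup.1 hv
    obtain ⟨b, hb⟩ := (hmem 0 y).1 hy
    obtain ⟨c, hc⟩ := (hmem 1 z).1 hz
    set w' : Fin 2 → Fin k → ZMod p := Pi.single 0 b + Pi.single 1 c with hw'
    have hLw : L X w' = v := by rw [hw', map_add, hb, hc, hyz]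
    rw [mem_image]
    refine ⟨(i, a, w'), mem_filter.2 ⟨mem_univ _, ?_, ?_⟩, ?_⟩
    · show a ≠ 0
      intro h0
      apply hu0
      rw [← ha, h0, Pi.single_zero, map_zero]
    · by_contra hcon
      push Not at hcon
      apply hvi
      rw [hmem]
      refine ⟨w' i, ?_⟩
      rw [← hLw]
      congr 1
      ext i' j
      by_cases hi : i' = i
      · subst hi
        rw [Pi.single_eq_same]
      · rw [Pi.single_eq_of_ne hi]
        have := hcon i' hi
        exact (congrFun this j).symm
    · show (L X (w1 (i, a, w')), L X w') = (u, v)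
      rw [hLw, ← ha]
      rfl
  · refine le_trans (Nat.mul_le_mul_left _ ?_) hsum
    exact sum_image_le' _ _ (fun z : V × V => N z.1 z.2)

end Pool.Agent.H888R3.DG
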